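import Pool.Agent.helper14.F3.Defs

/-!
# Implicit function theorem for a curve (KUS-D5)
-/

open Set Metric MeasureTheory
open scoped ContDiff Topology

namespace Kusner.Def3

/-- Implicit function theorem for a curve. -/
theorem implicit_curve {k : ℕ} {F : ℝ × (Fin k → ℝ) → Fin k → ℝ} (hF : ContDiff ℝ ∞ F)
    {c d : Fin k → ℝ} (hc : ∀ i, 0 < c i) (h0 : ∀ σ i, F (0, σ) i = c i * σ i + d i) :
    ∃ (δ : ℝ) (σ : ℝ → Fin k → ℝ), 0 < δ ∧ ContDiffOn ℝ ∞ σ (Ioo (-δ) δ) ∧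
      ∀ θ ∈ Ioo (-δ) δ, F (θ, σ θ) = 0 := by
  set H : ℝ × (Fin k → ℝ) → ℝ × (Fin k → ℝ) := fun p => (p.1, F p) with hH
  have hHs : ContDiff ℝ ∞ H := contDiff_fst.prodMk hF
  set p0 : ℝ × (Fin k → ℝ) := (0, fun i => - d i / c i) with hp0
  have hFp0 : F p0 = 0 := by
    funext i
    rw [hp0, h0]
    have := (hc i).ne'
    simp only [Pi.zero_apply]
    field_simp
    ring
  have hHp0 : H p0 = (0, 0) := by
    simp only [hH, hFp0]
    rw [hp0]
  -- the derivative at p0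
  have hFd : HasFDerivAt F (fderiv ℝ F p0) p0 :=
    (hF.differentiable (by simp)).differentiableAt.hasFDerivAt
  have hHd : HasFDerivAt H ((ContinuousLinearMap.fst ℝ ℝ (Fin k → ℝ)).prod (fderiv ℝ F p0)) p0 :=
    hasFDerivAt_fst.prodMk hFd
  have hdir : ∀ u : Fin k → ℝ, fderiv ℝ F p0 (0, u) = fun i => c i * u i := by
    intro u
    have h1 : HasFDerivAt (fun σ : Fin k → ℝ => F ((0 : ℝ), σ))
        ((fderiv ℝ F p0).comp (ContinuousLinearMap.inr ℝ ℝ (Fin k → ℝ))) (fun i => - d i / c i) := by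
      have h2 : HasFDerivAt (fun σ : Fin k → ℝ => ((0 : ℝ), σ))
          (ContinuousLinearMap.inr ℝ ℝ (Fin k → ℝ)) (fun i => - d i / c i) := by
        exact (hasFDerivAt_const (0 : ℝ) _).prodMk (hasFDerivAt_id _)
      exact HasFDerivAt.comp (f := fun σ : Fin k → ℝ => ((0 : ℝ), σ)) _ hFd h2
    have h3 : HasFDerivAt (fun σ : Fin k → ℝ => F ((0 : ℝ), σ))
        (ContinuousLinearMap.pi fun i => c i • ContinuousLinearMap.proj (R := ℝ) (φ := fun _ : Fin k => ℝ) i)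
        (fun i => - d i / c i) := by
      have h4 : (fun σ : Fin k → ℝ => F ((0 : ℝ), σ)) = fun σ i => c i * σ i + d i := by
        funext σ i
        exact h0 σ i
      rw [h4, hasFDerivAt_pi]
      intro i
      have h5 := (((ContinuousLinearMap.proj (R := ℝ) (φ := fun _ : Fin k => ℝ) i).hasFDerivAt
        (x := fun i => - d i / c i)).const_mul (c i)).add_const (d i)
      exact h5
    have h6 := h1.unique h3
    have h7 := congrArg (fun T => T u) h6
    simp only [ContinuousLinearMap.comp_apply, ContinuousLinearMap.inr_apply] at h7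
    rw [h7]
    funext i
    simp
  set L := (ContinuousLinearMap.fst ℝ ℝ (Fin k → ℝ)).prod (fderiv ℝ F p0) with hL
  have hinj : Function.Injective L := by
    rw [injective_iff_map_eq_zero]
    rintro ⟨h, u⟩ hu
    have h1 : h = 0 := congrArg Prod.fst hu
    have h2 : fderiv ℝ F p0 (h, u) = 0 := congrArg Prod.snd hu
    rw [h1, hdir] at h2
    have h3 : u = 0 := by
      funext i
      have h4 := congrFun h2 i
      simp only [Pi.zero_apply] at h4
      rcases mul_eq_zero.1 h4 with h5 | h5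
      · exact absurd h5 (hc i).ne'
      · exact h5
    rw [h1, h3]
    rfl
  let L' : (ℝ × (Fin k → ℝ)) ≃L[ℝ] (ℝ × (Fin k → ℝ)) :=
    (LinearEquiv.ofInjectiveEndo L.toLinearMap hinj).toContinuousLinearEquiv
  have hL' : (L' : (ℝ × (Fin k → ℝ)) →L[ℝ] (ℝ × (Fin k → ℝ))) = L := by
    ext x <;> rfl
  have hfd : fderiv ℝ H p0 = L := hHd.fderiv
  have hstr : HasStrictFDerivAt H (L' : (ℝ × (Fin k → ℝ)) →L[ℝ] (ℝ × (Fin k → ℝ))) p0 := by
    rw [hL', ← hfd]
    exact hHs.contDiffAt.hasStrictFDerivAt (by simp)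
  set e := hstr.toOpenPartialHomeomorph H with he
  have hmem : p0 ∈ e.source := hstr.mem_toOpenPartialHomeomorph_source
  have hecoe : ∀ p, e p = H p := fun p => rfl
  have htgt : ((0 : ℝ), (0 : Fin k → ℝ)) ∈ e.target := by
    have := e.map_source hmem
    rw [hecoe, hHp0] at this
    exact this
  have hsymm0 : e.symm ((0 : ℝ), (0 : Fin k → ℝ)) = p0 := by
    have := e.left_inv hmem
    rw [hecoe, hHp0] at this
    exact this
  have hcont : ContinuousAt (fun θ : ℝ => e.symm (θ, (0 : Fin k → ℝ))) 0 := by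
    have h1 : ContinuousAt e.symm ((0 : ℝ), (0 : Fin k → ℝ)) := e.continuousAt_symm htgt
    have h2 : ContinuousAt (fun θ : ℝ => (θ, (0 : Fin k → ℝ))) 0 := by fun_prop
    exact ContinuousAt.comp (g := e.symm) (f := fun θ : ℝ => (θ, (0 : Fin k → ℝ))) h1 h2
  have hev1 : ∀ᶠ θ : ℝ in 𝓝 0, (θ, (0 : Fin k → ℝ)) ∈ e.target := by
    have h2 : ContinuousAt (fun θ : ℝ => (θ, (0 : Fin k → ℝ))) 0 := by fun_prop
    exact h2.eventually (e.open_target.mem_nhds htgt)
  have hev2 : ∀ᶠ θ : ℝ in 𝓝 0, fderiv ℝ H (e.symm (θ, (0 : Fin k → ℝ))) ∈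
      range ((↑) : ((ℝ × (Fin k → ℝ)) ≃L[ℝ] (ℝ × (Fin k → ℝ))) →
        (ℝ × (Fin k → ℝ)) →L[ℝ] (ℝ × (Fin k → ℝ))) := by
    have h3 : Continuous (fderiv ℝ H) := hHs.continuous_fderiv (by simp)
    have h4 : ContinuousAt (fun θ : ℝ => fderiv ℝ H (e.symm (θ, (0 : Fin k → ℝ)))) 0 :=
      ContinuousAt.comp (g := fderiv ℝ H) h3.continuousAt hcont
    have h5 := ContinuousLinearEquiv.nhds L'
    rw [hL', ← hfd, ← hsymm0] at h5
    exact h4.eventually h5
  obtain ⟨δ, hδ, hball⟩ := Metric.eventually_nhds_iff.1 (hev1.and hev2)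
  refine ⟨δ, fun θ => (e.symm (θ, (0 : Fin k → ℝ))).2, hδ, ?_, ?_⟩
  · intro θ hθ
    have hd : dist θ 0 < δ := by
      rw [Real.dist_eq, sub_zero, abs_lt]
      exact hθ
    obtain ⟨h1, E, hE⟩ := hball hd
    have h2 : ContDiffAt ℝ ∞ e.symm (θ, (0 : Fin k → ℝ)) := by
      apply e.contDiffAt_symm (f₀' := E) h1
      · rw [hE]
        exact ((hHs.differentiable (by simp)) _).hasFDerivAt
      · exact hHs.contDiffAt
    have h3 : ContDiffAt ℝ ∞ (fun θ : ℝ => (θ, (0 : Fin k → ℝ))) θ := by fun_prop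
    have h4 : ContDiffAt ℝ ∞ (fun θ : ℝ => e.symm (θ, (0 : Fin k → ℝ))) θ :=
      ContDiffAt.comp (g := e.symm) (f := fun θ : ℝ => (θ, (0 : Fin k → ℝ))) θ h2 h3
    exact (contDiffAt_snd.comp θ h4).contDiffWithinAt
  · intro θ hθ
    have hd : dist θ 0 < δ := by
      rw [Real.dist_eq, sub_zero, abs_lt]
      exact hθ
    obtain ⟨h1, _⟩ := hball hd
    have h2 : H (e.symm (θ, (0 : Fin k → ℝ))) = (θ, 0) := e.right_inv h1
    have h3 : (e.symm (θ, (0 : Fin k → ℝ))).1 = θ := congrArg Prod.fst h2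
    have h4 : F (e.symm (θ, (0 : Fin k → ℝ))) = 0 := congrArg Prod.snd h2
    have h5 : (θ, (e.symm (θ, (0 : Fin k → ℝ))).2) = e.symm (θ, (0 : Fin k → ℝ)) := by
      exact Prod.ext h3.symm rfl
    show F (θ, (e.symm (θ, (0 : Fin k → ℝ))).2) = 0
    rw [h5, h4]

end Kusner.Def3
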